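import Pool.Agent.Lib.Pad47bbQ.Descent

/-!
Products: rational polyhedral fundamental domains on finitely many cones give one on the product
of the cones, for every group of automorphisms of the product lattice and cone which contains the
product of the groups.
-/

open Set Topology

namespace Pool.Agent.Lib.Pad47bbP

open Pool.Agent.Lib.Pad47bb

variable {ι : Type*} [Fintype ι] {V : ι → Type*} [∀ i, NormedAddCommGroup (V i)]
  [∀ i, NormedSpace ℝ (V i)]

/-- The product of the lattices `L i`. -/
abbrev prodLattice (L : ∀ i, Submodule ℤ (V i)) : Submodule ℤ (∀ i, V i) :=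
  Submodule.pi univ L

/-- The product of the cones `K i`. -/
def prodCone (K : ∀ i, PointedCone ℝ (V i)) : PointedCone ℝ (∀ i, V i) where
  carrier := {x | ∀ i, x i ∈ K i}
  add_mem' := fun hx hy i => (K i).add_mem (hx i) (hy i)
  zero_mem' := fun i => (K i).zero_mem
  smul_mem' := fun c _ hx i => (K i).smul_mem c.2 (hx i)

@[simp] theorem mem_prodCone {K : ∀ i, PointedCone ℝ (V i)} {x : ∀ i, V i} :
    x ∈ prodCone K ↔ ∀ i, x i ∈ K i := Iff.rfl

theorem coe_prodCone (K : ∀ i, PointedCone ℝ (V i)) :
    (prodCone K : Set (∀ i, V i)) = Set.pi univ (fun i => (K i : Set (V i))) := by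
  ext x
  simp [mem_prodCone]

omit [∀ i, NormedSpace ℝ (V i)] in
theorem mem_prodLattice {L : ∀ i, Submodule ℤ (V i)} {x : ∀ i, V i} :
    x ∈ prodLattice L ↔ ∀ i, x i ∈ L i := by
  simp [Submodule.mem_pi]

omit [∀ i, NormedSpace ℝ (V i)] in
theorem discrete_prodLattice (L : ∀ i, Submodule ℤ (V i)) [∀ i, DiscreteTopology (L i)] :
    DiscreteTopology (prodLattice L) := by
  let φ : prodLattice L → ∀ i, L i := fun x i => ⟨x.1 i, mem_prodLattice.1 x.2 i⟩
  have hc : Continuous φ := by
    refine continuous_pi fun i => ?_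
    refine Continuous.subtype_mk ?_ _
    exact (continuous_apply i).comp continuous_subtype_val
  have hi : Function.Injective φ := by
    intro x y hxy
    apply Subtype.ext
    funext i
    exact congrArg Subtype.val (congrFun hxy i)
  exact DiscreteTopology.of_continuous_injective hc hi

theorem isZLattice_prodLattice [DecidableEq ι] (L : ∀ i, Submodule ℤ (V i))
    [∀ i, DiscreteTopology (L i)] [∀ i, IsZLattice ℝ (L i)]
    [DiscreteTopology (prodLattice L)] : IsZLattice ℝ (prodLattice L) := by
  refine ⟨?_⟩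
  rw [eq_top_iff]
  intro x _
  have hx : x = ∑ i, Pi.single i (x i) := (Finset.univ_sum_single x).symm
  rw [hx]
  refine Submodule.sum_mem _ fun i _ => ?_
  have h1 : x i ∈ Submodule.span ℝ (L i : Set (V i)) := by
    rw [IsZLattice.span_top (K := ℝ) (L := L i)]
    trivial
  have h2 : Submodule.span ℝ (L i : Set (V i)) ≤
      (Submodule.span ℝ (prodLattice L : Set (∀ i, V i))).comap
        (LinearMap.single ℝ V i) := by
    refine Submodule.span_le.2 fun y hy => ?_
    refine Submodule.subset_span ?_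
    refine mem_prodLattice.2 fun j => ?_
    by_cases h : j = i
    · subst h
      simpa using hy
    · simp [LinearMap.single, Pi.single_eq_of_ne h]
  exact h2 h1

variable {L : ∀ i, Submodule ℤ (V i)} {K : ∀ i, PointedCone ℝ (V i)}
  {Γ : ∀ i, Subgroup (V i ≃ₗ[ℝ] V i)}

theorem closure_prodCone (K : ∀ i, PointedCone ℝ (V i)) :
    closure (prodCone K : Set (∀ i, V i)) = Set.pi univ (fun i => closure (K i : Set (V i))) := by
  rw [coe_prodCone, closure_pi_set]

theorem interior_prodCone (K : ∀ i, PointedCone ℝ (V i)) :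
    interior (prodCone K : Set (∀ i, V i)) =
      Set.pi univ (fun i => interior (K i : Set (V i))) := by
  rw [coe_prodCone, interior_pi_set Set.finite_univ]

theorem setting_prod (S : ∀ i, Setting (L i) (K i) (Γ i))
    (G : Subgroup ((∀ i, V i) ≃ₗ[ℝ] (∀ i, V i)))
    (hGL : ∀ g ∈ G, ∀ x ∈ prodLattice L, g x ∈ prodLattice L)
    (hGK : ∀ g ∈ G, ∀ x ∈ prodCone K, g x ∈ prodCone K) :
    Setting (prodLattice L) (prodCone K) G := by
  refine ⟨?_, ?_, hGL, hGK⟩
  · intro x hx hx'
    rw [closure_prodCone] at hx hx'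
    funext i
    exact (S i).salient (x i) (hx i (mem_univ i)) (hx' i (mem_univ i))
  · rw [interior_prodCone]
    exact univ_pi_nonempty_iff.2 fun i => (S i).interior_nonempty

/-- The generators of the product cone. -/
noncomputable def prodGen [DecidableEq ι] (s : ∀ i, Finset (V i)) : Finset (∀ i, V i) := by
  classical
  exact Finset.univ.biUnion fun i => (s i).image (Pi.single i)

theorem mem_prodGen [DecidableEq ι] {s : ∀ i, Finset (V i)} {x : ∀ i, V i} :
    x ∈ prodGen s ↔ ∃ i, ∃ a ∈ s i, Pi.single i a = x := by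
  classical
  simp [prodGen]

theorem hull_prodGen [DecidableEq ι] (s : ∀ i, Finset (V i)) (x : ∀ i, V i) :
    x ∈ PointedCone.hull ℝ (prodGen s : Set (∀ i, V i)) ↔
      ∀ i, x i ∈ PointedCone.hull ℝ (s i : Set (V i)) := by
  classical
  constructor
  · intro hx i
    have h : PointedCone.hull ℝ (prodGen s : Set (∀ i, V i)) ≤
        prodCone (fun i => PointedCone.hull ℝ (s i : Set (V i))) := by
      refine Submodule.span_le.2 fun y hy => ?_
      obtain ⟨j, a, ha, rfl⟩ := mem_prodGen.1 (Finset.mem_coe.1 hy)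
      intro k
      by_cases hk : k = j
      · subst hk
        simpa using Submodule.subset_span (Finset.mem_coe.2 ha)
      · rw [Pi.single_eq_of_ne hk]
        exact Submodule.zero_mem _
    exact h hx i
  · intro hx
    have hxs : x = ∑ i, Pi.single i (x i) := (Finset.univ_sum_single x).symm
    rw [hxs]
    refine Submodule.sum_mem _ fun i _ => ?_
    obtain ⟨c, hc, hxc⟩ := mem_hull_finset.1 (hx i)
    have h1 : (Pi.single i (x i) : ∀ i, V i) =
        ∑ a ∈ s i, c a • (Pi.single i a : ∀ i, V i) := by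
      have h2 : (Pi.single i (x i) : ∀ i, V i) = LinearMap.single ℝ V i (x i) := rfl
      rw [h2, hxc, map_sum]
      refine Finset.sum_congr rfl fun a _ => ?_
      rw [map_smul]
      rfl
    rw [h1]
    refine Submodule.sum_mem _ fun a ha => PointedCone.smul_mem _ (hc a ha) ?_
    exact Submodule.subset_span (Finset.mem_coe.2 (mem_prodGen.2 ⟨i, a, ha, rfl⟩))

/-- The product of rational polyhedral cones is rational polyhedral. -/
theorem isRatPoly_prod {P : ∀ i, PointedCone ℝ (V i)} (h : ∀ i, IsRatPoly (L i) (P i)) :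
    IsRatPoly (prodLattice L) (prodCone P) := by
  classical
  choose s hsL hs using h
  refine ⟨prodGen s, ?_, ?_⟩
  · intro x hx
    obtain ⟨j, a, ha, rfl⟩ := mem_prodGen.1 (Finset.mem_coe.1 hx)
    refine mem_prodLattice.2 fun k => ?_
    by_cases hk : k = j
    · subst hk
      simpa using hsL k (Finset.mem_coe.2 ha)
    · rw [Pi.single_eq_of_ne hk]
      exact Submodule.zero_mem _
  · ext x
    rw [hull_prodGen, mem_prodCone]
    refine forall_congr' fun i => ?_
    rw [hs i]

/-- Rational polyhedral fundamental domains on products. -/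
theorem hasRPFD_prod [∀ i, FiniteDimensional ℝ (V i)] [∀ i, DiscreteTopology (L i)]
    [∀ i, IsZLattice ℝ (L i)] (S : ∀ i, Setting (L i) (K i) (Γ i))
    (G : Subgroup ((∀ i, V i) ≃ₗ[ℝ] (∀ i, V i)))
    (hGL : ∀ g ∈ G, ∀ x ∈ prodLattice L, g x ∈ prodLattice L)
    (hGK : ∀ g ∈ G, ∀ x ∈ prodCone K, g x ∈ prodCone K)
    (hG : ∀ γ : ∀ i, V i ≃ₗ[ℝ] V i, (∀ i, γ i ∈ Γ i) → LinearEquiv.piCongrRight γ ∈ G)
    (h : ∀ i, HasRPFD (L i) (Γ i) (K i)) : HasRPFD (prodLattice L) G (prodCone K) := by
  classical
  have := discrete_prodLattice L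
  have := isZLattice_prodLattice L
  have S' := setting_prod S G hGL hGK
  choose P hP hdom using h
  have hcov : ∀ i, ∀ x ∈ K i, ∃ g ∈ Γ i, ∃ y ∈ P i, g y = x := by
    intro i x hx
    have h1 : x ∈ (K i : Set (V i)) := hx
    rw [(hdom i).1] at h1
    simp only [mem_iUnion] at h1
    obtain ⟨g, hg, y, hy, hyx⟩ := h1
    exact ⟨g, hg, y, hy, hyx⟩
  have hPK : ∀ i, P i ≤ K i := by
    intro i x hx
    show x ∈ (K i : Set (V i))
    rw [(hdom i).1]
    exact mem_biUnion (one_mem (Γ i)) ⟨x, hx, rfl⟩
  refine exists_fundDomain S' (isRatPoly_prod hP) (Subset.antisymm ?_ ?_)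
  · intro x hx
    choose g hg y hy hgy using fun i => hcov i (x i) (hx i)
    refine mem_biUnion (hG g hg) ⟨y, hy, ?_⟩
    funext i
    exact hgy i
  · refine iUnion₂_subset fun g hg => ?_
    rintro _ ⟨y, hy, rfl⟩
    exact hGK g hg y fun i => hPK i (hy i)

end Pool.Agent.Lib.Pad47bbP
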