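import Pool.Agent.Lib.Pad47bbP.Prod

/-!
The data of a quotient by a finite group, and the combination of products and quotients.
-/

open Set Topology

namespace Pool.Agent.Lib.Pad47bbP

open Pool.Agent.Lib.Pad47bb

/-- The group `G` preserves the lattice `L` and the cone `K`. -/
def Preserves {V : Type*} [NormedAddCommGroup V] [NormedSpace ℝ V] (L : Submodule ℤ V)
    (K : PointedCone ℝ V) (G : Subgroup (V ≃ₗ[ℝ] V)) : Prop :=
  (∀ g ∈ G, ∀ x ∈ L, g x ∈ L) ∧ ∀ g ∈ G, ∀ x ∈ K, g x ∈ K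

/-- Quotient data for `(V, L, K, G)`: a finite group `H` of linear automorphisms preserving `L` and
`K`; an injective linear map `p : W → V` whose image is the space of `H`-invariants; a subgroup `M`
of `W` such that every `H`-invariant element of `L` has a positive multiple in `p M`; a subgroup
`D` of finite index of the group of all elements of `G` commuting with `H`; and a group `Γ'`
preserving `M` and the preimage of `K` such that every element of `D` restricts to an element of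
`Γ'`. -/
structure IsQuotient {V W : Type*} [NormedAddCommGroup V] [NormedSpace ℝ V]
    [NormedAddCommGroup W] [NormedSpace ℝ W] (L : Submodule ℤ V) (K : PointedCone ℝ V)
    (G H D : Subgroup (V ≃ₗ[ℝ] V)) (p : W →ₗ[ℝ] V) (M : Submodule ℤ W)
    (Γ' : Subgroup (W ≃ₗ[ℝ] W)) : Prop where
  finite : Finite H
  preserves : Preserves L K H
  injective : Function.Injective p
  range : ∀ x, (∃ w, p w = x) ↔ ∀ h ∈ H, h x = x
  lattice : ∀ x ∈ L, (∀ h ∈ H, h x = x) → ∃ n : ℕ, 0 < n ∧ ∃ m ∈ M, p m = (n : ℝ) • x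
  index : (D.subgroupOf (G ⊓ Subgroup.centralizer (H : Set (V ≃ₗ[ℝ] V)))).FiniteIndex
  preserves' : Preserves M (K.comap p) Γ'
  lift : ∀ d ∈ D, ∃ g ∈ Γ', ∀ w, p (g w) = d (p w)

/-- Products and finite quotients. -/
theorem prod_quot {ι : Type*} [Fintype ι] {V : ι → Type*} [∀ i, NormedAddCommGroup (V i)]
    [∀ i, NormedSpace ℝ (V i)] [∀ i, FiniteDimensional ℝ (V i)]
    {W : Type*} [NormedAddCommGroup W] [NormedSpace ℝ W] [FiniteDimensional ℝ W]
    (L : ∀ i, Submodule ℤ (V i)) [∀ i, DiscreteTopology (L i)] [∀ i, IsZLattice ℝ (L i)]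
    (M : Submodule ℤ W) [DiscreteTopology M] [IsZLattice ℝ M]
    (K : ∀ i, PointedCone ℝ (V i)) (Γ : ∀ i, Subgroup (V i ≃ₗ[ℝ] V i))
    (hS : ∀ i, Setting (L i) (K i) (Γ i)) (hΓ : ∀ i, HasRPFD (L i) (Γ i) (K i))
    (G H D : Subgroup ((∀ i, V i) ≃ₗ[ℝ] (∀ i, V i)))
    (hG : Preserves (prodLattice L) (prodCone K) G)
    (hG' : ∀ γ : ∀ i, V i ≃ₗ[ℝ] V i, (∀ i, γ i ∈ Γ i) → LinearEquiv.piCongrRight γ ∈ G)
    (p : W →ₗ[ℝ] (∀ i, V i)) (Γ' : Subgroup (W ≃ₗ[ℝ] W))
    (hQ : IsQuotient (prodLattice L) (prodCone K) G H D p M Γ') :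
    HasRPFD M Γ' ((prodCone K).comap p) := by
  have := hQ.finite
  have hLd := discrete_prodLattice L
  classical
  have hLz := isZLattice_prodLattice L
  exact Pool.Agent.Lib.Pad47bbQ.descent (setting_prod hS G hG.1 hG.2) H hQ.preserves.1
    hQ.preserves.2 p hQ.injective hQ.range hQ.lattice D hQ.index Γ' hQ.preserves'.1
    hQ.preserves'.2 hQ.lift (hasRPFD_prod hS G hG.1 hG.2 hG' hΓ)

end Pool.Agent.Lib.Pad47bbP
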